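import Pool.Agent.FQV.StmtB

/-!
# The Mumford–Tate conjecture for abelian varieties of all types over number fields

Let `A` be an abelian variety over a number field `K ⊂ ℂ` with connected `ℓ`-adic monodromy groups
`G_ℓ` (this holds after a finite extension of `K`, Serre). All endomorphisms of `A` are defined over
`K`. Let `E` be the centre of `End(A) ⊗ ℚ`, a product of totally real fields and CM fields with the
complex conjugation `c`. For `σ : E → ℂ` let `n(σ)` be the dimension of the irreducible
`G_ℓ`-submodules `W` of the eigenspace `V_σ` of `V_ℓ(A) ⊗ ℂ`, and `r(σ)` the multiplicity of `σ` in
`Lie(A) ⊗_K ℂ`, divided by the Schur index. If `A` is simple of type I, II, III, IV, then the `σ` are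
real and `W` is symplectic (I, II) or orthogonal (III), or the `σ` are not real (IV); for real `σ`
always `2 r(σ) = n(σ)`.

The theorem says that the Mumford–Tate conjecture is true for `A` if
* `K = ℚ` and `dim A ≤ 7`, or
* the numerical conditions `Num` hold; they concern only `n(σ)`, `r(σ)`, the field `E`, the degree
  of `K`, and whether `K` is real.
Then the Hodge classes and the Tate classes on all powers of `A` agree, for all `ℓ`.

## The data

* `Φ` is the Frobenius element of a place `v` of `K` of degree one with good reduction for which the
  Frobenius torus is a maximal torus of `G_ℓ` (Serre: the density of these places is one); its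
  eigenvalues have the same absolute value (Weil) and the group generated by them has no torsion.
  `E` and `Φ` act on `V_ℓ` with rational traces, so they are given by rational matrices in a suitable
  basis (`Frob`). `tor Φ` is the Lie algebra of the Frobenius torus.
* `Mono`: the Lie algebra `g` of `G_ℓ` with coefficients in `ℂ`, an algebraic closure of `ℚ_ℓ`, is
  reductive, its commutant is `End(A) ⊗ ℂ` (Faltings) with the centre `E ⊗ ℂ`; it contains the
  homotheties (Bogomolov); `ψ` is the Weil pairing of a polarisation, and the types are those of
  Albert. The torus of `Φ` is maximal.
* `Place` (hypothesis `hHT`): let `γ` be an automorphism of `ℂ` over `K` and `S` a finite set of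
  algebraic numbers. By the theorem of Chebotarev there are a prime `ℓ` and an identification of `ℂ`
  with an algebraic closure of `ℚ_ℓ` such that the place of `K` over `ℓ` given by it has degree one
  and good reduction, and an automorphism `τ` over `ℚ_ℓ` which is equal to `γ` on `S`. The
  decomposition of Hodge and Tate (Tate, Sen) gives an idempotent in `g`; its conjugacy class is
  stable under `τ`, since the place has degree one, and contains an element `e` of `tor Φ`. The rank
  of `e` on `W` is `r(σ)`, since the place is the one given by `K ⊂ ℂ`: `Coch`.
* `Good` (hypothesis `hNW`): the same for the place `v` itself and `ℓ` the residue characteristic of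
  `v`, `τ` a Frobenius automorphism. Here `V` is the crystalline realisation, `Φ` is the crystalline
  Frobenius endomorphism (linear over `ℚ_ℓ`, with the same characteristic polynomial: Katz–Messing),
  and `g` the Lie algebra of the automorphism group of the crystalline fibre functor of the
  representations of `G_ℓ`. The Newton cocharacter of `Φ` is in the convex hull of the conjugates of
  `e` (Rapoport–Richartz), and its conjugates under `Aut(ℂ)` span the Lie algebra of the Frobenius
  torus, because the eigenvalues of `Φ` have the same absolute values and are units outside `ℓ`
  (Serre). This gives `Spans`. By the theorem of Chebotarev `τ` can be prescribed on a finite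
  extension of `K`, in particular on the field generated by the `σ(E)`.

## The conclusion

`N ∈ g` if and only if `N` commutes with the commutant of `g`, that is with `End(A)`, and has the
multiplier and the traces on the irreducible subspaces of a combination `∑ a_γ γ(e)`. Let `m` be the
Lie algebra of the Mumford–Tate group, with coefficients in `ℂ`. By Deligne, Borovoi and
Piatetski-Shapiro `g ⊂ m`. As a Lie algebra with an action of the group `m` is spanned by the
conjugates of the images under `Aut(ℂ)` of the Hodge cocharacter, which has the ranks `r(σ)` and the
multiplier one; so its elements satisfy the condition of the theorem and `m ⊂ g`. Thus `G_ℓ` is the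
Mumford–Tate group for all `ℓ` (for `ℓ` equal to the residue characteristic of `v` one takes another
place `v`).

## The numerical conditions

For every `σ`, with `n = n(σ)` and `r'` for the numbers `r(σ')` of the embeddings `σ'` of the factor
of `E` to which `σ` belongs (`SK`):
* `n = 1`, or
* `σ` is real (`CondR`): `W` is symplectic and `n = 4`; or `n` is not divisible by `4`, or the
  arithmetic condition (A) holds, and `n ≠ 2 ^ m`, `m ≥ 4`, and `n ≠ 8` in the orthogonal case. And
  `K` is real or `n ≠ C(2k, k)` for `k ≥ 3`, `k` odd in the symplectic case and even in the
  orthogonal case.
* `σ` is not real (`CondN`): there is no twist (`NoTwist`), and `n = 4` and some `r' = 2`; or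
  (A) or (B) holds, and some `r' = n / 2` and `n ≠ 4 ^ m`, `m ≥ 2`, or some `r'`, `0 < r' < n`, is
  not `n / 2` and `(n, r')` is not of the form `(C(N, k), C(N - 1, k - 1))`, `2 ≤ k ≤ N - 2`.
* (A) (`CondA`): the powers of `τ` and the complex conjugation permute the `σ'` transitively (for
  example if the totally real part of the factor is `ℚ` or cyclic over `ℚ` and linearly disjoint
  from `K`), and `k` is prime to the degree of `K` if `n = m ^ k`, `k ≥ 2`, `m ^ (k - 1) ∣ r(σ)`.
* (B) (`CondB`): there is no factorisation `n = a b`, `a, b > 1`, such that all `r'` are divisible by
  `a` or `b`, one with `0 < r' < n` by `a`, and one by `b`.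
* `NoTwist`: if `n(σ') = n(σ)` and the numbers `r(γ σ')` and `r(γ σ)` agree for all `γ ∈ Aut(ℂ)` up
  to exchanging `0` and `n`, then they agree. (Otherwise `W` and `W'` can be isomorphic up to a
  character. If all `r'` are different from `0` and `n` there is nothing to check.)
* if `n(σ) = 4`, `n(σ') = 6`, `σ` is not real and `σ'` is real of orthogonal type, then some `r'` is
  not `1` or `3` (because of the isomorphism of the types `A₃` and `D₃`).

These conditions exclude the cases in which there can be smaller groups than the one of the
conclusion (tensor products, exterior powers, spin representations, twists). The factor `A` may be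
a product of simple abelian varieties of different types; the theorem includes the statement that
there are no relations between the monodromy groups of the factors except the obvious ones.

Examples: all `A` over `ℚ` of dimension at most seven; type I, II with `n = 2 dim A / [E : ℚ]`
(I), `dim A / [E : ℚ]` (II) not divisible by `4` or equal to `4`; type III with `dim A / [E : ℚ]` not
divisible by `4`, if `K` is real or this number is not `C(2k, k)`, `k ≥ 4` even; type IV with `n`
prime, or `n = 4` and some `r' = 2`, and no twists, for arbitrary signatures; `E = ℚ` and `K` real of
degree prime to the exponents `k` with `2 dim A = m ^ k`, if `2 dim A ≠ 2 ^ m`, `m ≥ 4`.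

## Earlier results

`E = ℚ`: Serre (`n` not divisible by `4`, or `n = 4`), Pink (`n ≠ m ^ k`, `n ≠ C(2k, k)`, `k ≥ 3`
odd), and TrivialEndo in this folder (there `G_ℓ` need not be connected). Types I, II, III with
`n / 2` odd and without the exceptional dimensions of type III: Chi, Banaszak–Gajda–Krasoń; small
toric rank: Hall, Hindry–Ratazzi. Type IV: Ribet, Chi, Xue–Zarhin, Vasiu (conditions on the
Mumford–Tate group). Products: Lombardo, Commelin (the conjecture for the factors implies it for the
product).

## The idea of the proof

The lattice of the weights of `tor Φ` on `W` and its roots are independent of `ℓ` and permuted by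
`Aut(ℂ)`. An idempotent `e` as above acts on `W` by one connected component of the roots only. In the
case (A) the stabiliser of `σ` permutes the components transitively, their number `k` is prime to the
degree of `K`, so that the automorphisms over `K` still permute them transitively, and each of them
fixes one component, the one of its `e`; by the theorem of Jordan there is only one. In the case (B)
the factorisation of `n` given by two components contradicts the ranks. So the roots on `W` are
connected. Then the operators induced by `g` on `W` are all those of trace zero which are skew for
the invariant forms; this is proved without the classification of simple Lie algebras, by the study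
of elements of minimal rank (SmallRank) and of the Jordan algebras given by invertible elements of
degree one (Tube). If `K` is real the complex conjugation is used as a Frobenius automorphism: then
`e` and `1 - e` are conjugate. Finally, if a root acts on `W` and on `W'` for `σ' ≠ σ, c σ`, then the
roots and the weights of both agree, `e` has the same values on corresponding eigenvalues of `Φ` up
to exchanging `0` and `n`; since there are no twists corresponding eigenvalues are equal and
`σ' = σ` or `σ' = c σ`.
-/

set_option autoImplicit false

namespace Pool.Agent.Results.MP_6c781a_ag.AllTypes

open Pool.Agent.FQV.Stmt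

/-- The Mumford–Tate conjecture for abelian varieties of all types over number fields: the Lie
algebra `g` of the monodromy group consists of all matrices which commute with the endomorphisms and
have the multiplier and the traces of a combination of the conjugates of the idempotent of Hodge and
Tate. -/
theorem result {ι : Type} [Fintype ι] [DecidableEq ι] {E : Type} [CommRing E] [Algebra ℚ E]
    [Module.Finite ℚ E] [IsReduced E] {R : E →+* Matrix ι ι ℚ} {Φ : Matrix ι ι ℚ} {c : E → E}
    (H : Frob R Φ) (hc : ∀ (σ : E →+* ℂ) a, σ (c a) = starRingEnd ℂ (σ a))
    {K : Subfield ℂ} [FiniteDimensional ℚ K] {n r : (E →+* ℂ) → ℕ} {sp : (E →+* ℂ) → Prop}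
    (hsp : ∀ σ σ' : E →+* ℂ, SK σ σ' → sp σ → sp σ')
    (hHT : ∀ γ : ℂ ≃+* ℂ, (∀ x ∈ K, γ x = x) → ∀ S : Finset ℂ, (∀ x ∈ S, IsAlgebraic ℚ x) →
      ∃ τ : ℂ ≃+* ℂ, (∀ x ∈ S, τ x = γ x) ∧ Place R c Φ sp r τ)
    (hNW : ∃ τ : ℂ ≃+* ℂ, (∀ x ∈ K, τ x = x) ∧ Good R c Φ sp n r τ ∧
      ((K = ⊥ ∧ Fintype.card ι ≤ 14) ∨ Num K τ n r sp))
    {g : Submodule ℂ (Matrix ι ι ℂ)} {ψ : Matrix ι ι ℂ} (M : Mono R c Φ sp g ψ)
    (N : Matrix ι ι ℂ) :
    N ∈ g ↔ (∀ Z : Matrix ι ι ℂ, (∀ x ∈ g, x * Z = Z * x) → N * Z = Z * N) ∧
      ∃ a : (ℂ ≃+* ℂ) →₀ ℂ, TrC R r g ψ N a :=
  Pool.Agent.FQV.main' H hc hsp hHT hNW M N

end Pool.Agent.Results.MP_6c781a_ag.AllTypes
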