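import Pool.Agent.SmallRank.RatMain

/-!
# The Mumford-Tate conjecture for abelian varieties with `End = ℤ` and a place of bad reduction

Let `F` be an alternating rational matrix with nonzero determinant, `h` a Lie algebra of rational
matrices `x` with `xᵀ F + F x = 0`, which has no ideals over `ℚ` except `0` and `h`, such that `ℂⁿ`
is irreducible under `h`. Assume that the complex span `H` of `h` contains `2 e - 1` for an
idempotent `e`, and the following *condition of bad reduction*: for every automorphism `γ` of `ℂ`
and every finite set `S` of algebraic numbers there is an automorphism `τ` of `ℂ`, equal to `γ` on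
`S`, which fixes a nonzero matrix `N ∈ H` with `N² = 0`.

Then `h` is the set of all rational matrices `x` with `xᵀ F + F x = 0`, if one of the following
conditions holds.

* `H` contains a nonzero matrix whose rank is less than `n / 4`.
* `n` is neither a power `2 ^ m` with `m ≥ 5`, nor a binomial coefficient `C(2 k, k)` with `k ≥ 3`
  odd.

Application. Let `A` be an abelian variety of dimension `g` over a number field `K` with
`End(A) = ℤ` over an algebraic closure, which does not have potentially good reduction at some
place `v` of `K`; let `t > 0` be the toric rank of the semistable reduction at `v`. There is no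
condition on `K`, and we may enlarge `K`: the monodromy groups `G_ℓ` are connected and `A` has
semistable reduction at `v`. By Pink (1998, Theorem 5.13) there are a reductive group `P` over `ℚ`
and a set `L` of prime numbers `ℓ` of density one such that `G_ℓ` is `P` over `ℚ_ℓ` for all `ℓ ∈ L`,
and the derived group of `P` has no proper normal connected subgroup over `ℚ`. Let `h` be its Lie
algebra, `n = 2 g`, `e` the derivative of a Hodge-Tate cocharacter (the centre of `P` consists of
homotheties). For `γ` and `S` there is `ℓ ∈ L`, not divisible by `v`, such that the Frobenius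
automorphism at `ℓ` is `γ` on `S` (Chebotarev), for an identification of `ℂ` with an algebraic
closure of `ℚ_ℓ`; let `τ` be an extension of this element of the Galois group of `ℚ_ℓ`, and `N` the
logarithm of the local monodromy at `v`; it is in `h ⊗ ℚ_ℓ`, its square is zero, its rank is `t`.

So the Mumford-Tate conjecture holds for `A` (for all `ℓ`, by Larsen and Pink, and for all powers of
`A` and all degrees, because `G_ℓ` is the group of symplectic similitudes, which contains the
Mumford-Tate group, by Deligne), if `t < g / 2`, or if `2 g` is neither `2 ^ m`, `m ≥ 5`, nor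
`C(2 k, k)`, `k ≥ 3` odd.

The idea of the proof. `H` is a sum of simple ideals, permuted transitively by the automorphisms of
`ℂ`. An element `N` with `N² = 0` lies in one of the ideals, which is fixed by `τ`; so every
automorphism of `ℂ` fixes one of the ideals, and by Jordan's theorem there is only one. Now let `c`
be an element of minimal rank `ρ` among the elements of `H` of degree one (`e c = c`, `c e = 0`) and
`f` its partner of degree minus one. If there is an element `x` of degree one which is orthogonal to
the pair (`f x = 0 = x f`) then `c + x` is an isomorphism of the kernel and the range of `e`, and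
`H` is described by a Jordan algebra of operators, or `ρ < n / 4`. In this case there is an element
`w` of degree zero such that the corner `c f H c f` is an algebra with an involution, the operators
`a + a*`, `a a*` being scalars; it is the algebra of all operators of the range of `c`, so `ρ ≤ 2`,
and `H` is symplectic. If there is no such `x` then `x y x` is a multiple of `x` for all `x` of
degree one and `y` of degree minus one, and `H` is the Lie algebra `sl(2 k)` acting on an exterior
power: with commuting idempotents for `2 k` letters the traces and the highest weight vector show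
that `n = C(2 k, k)`, and the form shows that `k` is odd. The classification of simple Lie algebras
and their representations is not used.
-/

set_option autoImplicit false

namespace Pool.Agent.Results.MP_6c781a_ag.BadReduction

variable {ι : Type} [Fintype ι] [DecidableEq ι]

/-- The complex vector space spanned by a space `h` of rational matrices. -/
def complexSpan (h : Submodule ℚ (Matrix ι ι ℚ)) : Submodule ℂ (Matrix ι ι ℂ) :=
  Submodule.span ℂ ((fun x : Matrix ι ι ℚ => x.map (fun q : ℚ => (q : ℂ))) '' h)

/-- `h` is a Lie algebra of rational matrices which are skew with respect to the alternating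
invertible matrix `F`, without ideals over `ℚ` other than `0` and `h`, and there are no complex
subspaces stable under `h` other than `0` and the whole space. -/
structure MonodromyAlgebra (F : Matrix ι ι ℚ) (h : Submodule ℚ (Matrix ι ι ℚ)) : Prop where
  alternating : F.transpose = -F
  invertible : IsUnit F
  skew : ∀ x ∈ h, x.transpose * F + F * x = 0
  lie : ∀ x ∈ h, ∀ y ∈ h, x * y - y * x ∈ h
  simple : ∀ a : Submodule ℚ (Matrix ι ι ℚ), a ≤ h → (∀ x ∈ h, ∀ y ∈ a, x * y - y * x ∈ a) →
    a = ⊥ ∨ a = h
  irreducible : ∀ W : Submodule ℂ (ι → ℂ),
    (∀ x ∈ h, ∀ w ∈ W, (x.map (fun q : ℚ => (q : ℂ))).mulVec w ∈ W) → W = ⊥ ∨ W = ⊤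

/-- The condition of bad reduction: every automorphism of `ℂ` agrees on a given finite set of
algebraic numbers with one which fixes a nonzero matrix of square zero in the complex span. -/
def BadPlace (h : Submodule ℚ (Matrix ι ι ℚ)) : Prop :=
  ∀ (γ : ℂ ≃+* ℂ) (S : Finset ℂ), (∀ x ∈ S, IsAlgebraic ℚ x) →
    ∃ τ : ℂ ≃+* ℂ, (∀ x ∈ S, τ x = γ x) ∧
      ∃ N ∈ complexSpan h, N ≠ 0 ∧ N * N = 0 ∧ N.map τ = N

/-- A simple Lie algebra of rational matrices with a cocharacter and a place of bad reduction
consists of all skew matrices, if it contains over `ℂ` a nonzero matrix of rank less than a quarter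
of the dimension, or if the dimension is neither a power of two, at least `32`, nor a middle
binomial coefficient `C(2 k, k)` with `k ≥ 3` odd. -/
theorem result (F : Matrix ι ι ℚ) (h : Submodule ℚ (Matrix ι ι ℚ)) (hh : MonodromyAlgebra F h)
    (e : Matrix ι ι ℂ) (hee : e * e = e) (heh : (2 : ℂ) • e - 1 ∈ complexSpan h)
    (hbad : BadPlace h)
    (hn : (∃ N ∈ complexSpan h, N ≠ 0 ∧ 4 * N.rank < Fintype.card ι) ∨
      ((∀ m : ℕ, 5 ≤ m → Fintype.card ι ≠ 2 ^ m) ∧
        ∀ k : ℕ, Odd k → 3 ≤ k → Fintype.card ι ≠ (2 * k).choose k))
    (x : Matrix ι ι ℚ) : x ∈ h ↔ x.transpose * F + F * x = 0 := by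
  have D : FQ.LieData F h := ⟨hh.alternating, hh.invertible, hh.skew, hh.lie, hh.simple,
    hh.irreducible⟩
  refine SmallRank.main_bad D (e := e) ⟨hee, heh⟩ ?_ hn x
  intro γ S hS
  obtain ⟨τ, hτ, N, hN, hN0, hNN, hNτ⟩ := hbad γ S hS
  exact ⟨τ, hτ, N, hN, hNN, hN0, hNτ⟩

end Pool.Agent.Results.MP_6c781a_ag.BadReduction
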