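import Pool.Agent.HTate.StmFinal

/-!
# Tate classes on products of hyperelliptic Jacobians with rational Weierstrass points

Let `K` be a field in which `2` is not zero, `L` an algebraic closure of `K`, and let `a i` be
elements of `K`, `i` in a finite set `ι`. Let `S s` be a finite family of different subsets of `ι`
of odd cardinality at least three, such that the `a i` with `i` in `S s` are different, and let
`J s` be the Jacobian of the hyperelliptic curve `y² = ∏ (x - a i)`, `i ∈ S s`.

A pair `{i, j}` is free if the difference `a i - a j` is not, up to the sign and a square in `K`, a
product of differences of other pairs (contained in some `S s`). Suppose that for every `s` the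
graph of the free pairs on the set `S s` is connected. (This requires only `|S s| - 1` free pairs.)

Then for all `n` and `j` the Tate classes of degree `2 j` on the `n`-th power of the abelian variety
`∏ J s`, that is the alternating `2 j`-forms on its `2`-adic Tate module on which an open subgroup
of the Galois group acts by the power `χ ^ j` of the cyclotomic character, are exactly the linear
combinations of products of the classes of degree two given by the Weil pairings of the single
factors `J s`. In particular they are all generated by classes of divisors defined over `K`; if `K`
is a number field, the spaces of the Hodge classes and of the Tate classes are equal for `ℓ = 2`, in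
all degrees and on all powers (and then for all `ℓ`, by Larsen and Pink).

Everything is defined from scratch: the Jacobian is the group of divisors modulo the divisors of
functions, the Weil pairing is the quotient of values of functions. The proof determines the
action of Galois on the points of order four (by an explicit division by two), lifts Galois
automorphisms which change the sign of exactly one square root of a difference, and shows that the
Lie algebra generated by the resulting elements is the full symplectic algebra of every factor.

By `Pool.Agent.HTate.density` (file `Pool/Agent/HTate/DensC.lean`) the hypothesis holds for all
families of subsets at once, with all pairs free, for a proportion of the integral tuples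
`0 ≤ a 1, …, a N < B` that tends to one when `B` tends to infinity.
-/

set_option autoImplicit false

noncomputable section

namespace Pool.Agent.Attic.MP_6c781a_ag.HyperellipticPowers

open Pool.Agent.HTate.Stm

theorem result {K : Type} [Field K] (h2 : (2 : K) ≠ 0) {L : Type} [Field L] [Algebra K L]
    [Algebra.IsAlgebraic K L] [IsAlgClosed L] {ι : Type} [Fintype ι] (a : ι → K) {σ : Type}
    [Fintype σ] {S : σ → Finset ι} (hinj : Function.Injective S)
    (ha : ∀ s, Set.InjOn a (S s)) (hodd : ∀ s, Odd (S s).card) (hthree : ∀ s, 3 ≤ (S s).card)
    (hconn : ∀ s, ∀ i ∈ S s, ∀ j ∈ S s,
      Relation.ReflTransGen (fun u v => u ∈ S s ∧ v ∈ S s ∧ Free a S u v) i j)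
    {ξ : ℕ → L} (hξ : IsRoots ξ) (n j : ℕ) (F : (Fin (2 * j) → Vec L a S n) → ℚ_[2])
    (hF : IsForm F) :
    IsTate F ↔ F ∈ Submodule.span ℚ_[2] (Set.range (product ξ)) :=
  main h2 a hinj ha hodd hthree hconn hξ n j F hF

end Pool.Agent.Attic.MP_6c781a_ag.HyperellipticPowers
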