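import Pool.Agent.Twist.Kinds
import Pool.Agent.TypeIV.Ranks
import Pool.Agent.TypeIV.KindFull
import Pool.Agent.Mod4.Final

/-!
# Lie algebras generated by Hodge cocharacters: numerical conditions, monodromy of small rank

Let `K` be an algebraically closed field of characteristic zero and `V` a finite-dimensional
vector space with a non-degenerate bilinear form `ψ`. Let `g` be the Lie algebra generated by a
set `G` of idempotent endomorphisms `e` of `V` with `ψ(ex, y) + ψ(x, ey) = ψ(x, y)`, and let `V` be
semisimple. Assume that every irreducible subspace `W` of `V`, of dimension `n`, satisfies one of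
the following conditions.

* `n` is one or two.
* `W` is symplectic (with the multiplier of `ψ`) and `n` is four or two modulo four.
* The ranks `r = dim e(W)`, `e ∈ G`, other than `0` and `n`, admit no tensor product, that is: there
  is no factorisation `n = a b` with `a, b > 1` such that every `r` is divisible by `a` or by `b`,
  some `r` by `a` and some `r` by `b`; and they admit no exterior power, that is: some `r` is not
  `n / 2`, and `(n, r)` is not `(C(N, k), C(N - 1, k - 1))` with `1 < k < N - 1`. For example one `r`
  is prime to `n > 2`.
* `g` contains an `N` with `N² = 0` such that `N(W)` is a line, and no `e` is scalar on `W` or some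
  `r` as above is not `n / 2`; or such an `N` with `dim N(W)` odd, and `W` is self-dual (with the
  multiplier of `ψ`); or such an `N` with `dim N(W) = 2`, and `W` is symplectic.

Assume moreover that there are no proper twists: if `W`, `W'` are irreducible, not lines, and `f` is
an isomorphism of the vector spaces such that every `e ∈ G` commutes with `f` or is scalar on both
`W` and `W'`, then `W` and `W'` are isomorphic or dual. This is void if no `e` acts as `0` or `1` on
an irreducible subspace that is not a line; it cannot be omitted, as otherwise the algebras of trace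
zero on `W` and `W'` are linked.

Then the derived algebra `[g, g]` is as large as possible: it consists of all `D` with
`ψ(Dx, y) + ψ(x, Dy) = 0` which commute with all endomorphisms commuting with `G` and have trace
zero on every irreducible subspace; and `g` is the sum of `[g, g]` and the span of `G`. So `g` is
determined by its commutant, the form `ψ` and the dimensions of the spaces `e(W)`.

In the application `V` is the `ℓ`-adic Tate module of an abelian variety `A` over a number field,
tensored with an algebraic closure `K` of `ℚ_ℓ`, `ψ` is the Weil pairing, `G` is the set of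
derivatives of the strong Hodge cocharacters, the conjugates under the monodromy group of the
Hodge-Tate cocharacters at the places over `ℓ` (Pink 1998, section 3), `V` is semisimple with
commutant `End(A) ⊗ K` (Faltings), and `N` is the logarithm of the local monodromy at a place of bad
reduction. `G` generates the Lie algebra `g` of the image of Galois: the algebra generated by `G` is
an ideal; by the theorems on one irreducible `W`, applied to `g`, which is generated by the weak Hodge
cocharacters (Pink 1998, Theorem 3.18), the derived algebra of `g` is simple on each `W` which is not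
a line, and some `e` in `G` is not scalar on `W`, so this ideal induces it there; a simple ideal of
`g` not contained in it would commute with it and be zero on each `W`; and modulo `[g, g]` the centre
is generated by the Hodge-Tate cocharacters, as for the Mumford-Tate group (Vasiu, Ullmo-Yafaev).

The theorem gives the derived algebra of the Mumford-Tate Lie algebra (which also contains `G` and
`N` and has the same commutant) if every simple factor of `A` over an algebraic closure is of one of
the following types, where `F` is the centre of its endomorphism algebra `D` and `n` is the dimension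
of the irreducible constituents of `V`, so `n = 2g / (√[D : F] [F : ℚ])`.

* CM type.
* Type I or II with `n = 4` or `n = 2` modulo `4` (relative dimension two or odd).
* Type I with a place where the toric rank divided by `[F : ℚ]` is odd or two; type II with a place
  of toric rank `4[F : ℚ]`, the least possible.
* Type IV with `n = 2`, or such that the multiplicities `r = dim e(W)` other than `0` and `n`, which
  are read off from the action of `F` on the tangent space, satisfy: for every factorisation `n = a b`
  with `a, b > 1` some `r` is divisible neither by `a` nor by `b`, and some `r` is neither `n / 2` nor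
  `C(N - 1, k - 1)` with `n = C(N, k)`, `1 < k < N - 1`. For example one `r` is prime to `n > 2`, or
  `n = 12` and `r = 2`, `3` both occur.
* Type IV with `D = F` and a place of toric rank `[F : ℚ]`, the least possible, if some `r` is not
  `n / 2` or no multiplicity is `0` or `n`.

The signature of type IV can be definite at some places of the totally real subfield of `F`, unless
this gives a twist. A twist of `W_σ` and `W_τ` means in particular that for all automorphisms `γ` the
multiplicities of `γσ` and of `γτ` are equal or both `0` or `n`; so for one simple factor there is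
none if the subfield is quadratic. The places may depend on the factor. The centres are known to
agree (Vasiu, Ullmo-Yafaev).

The idea of the proof: a square-zero element `c` of `g` with `c_W ≠ 0` and minimal total rank on the
pairwise non-isomorphic irreducible subspaces is extremal, `c g c = K c`. If `g` induces all
symplectic operators, or all operators of trace zero, on each `W`, then `c` has rank at most one
everywhere, and it is completed to a pair `c`, `f`. For `x` of weight one with respect to `[c, f]`
one has `x² = τ_W(x) c` on each `W` with `c_W ≠ 0`, and `x² f x² ∈ K c` shows that `τ_W² = τ_U²` for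
two such subspaces; `τ_W = τ_U` gives an isomorphism up to a twist, `τ_W = -τ_U` a duality up to a
twist, and `τ_W = 0` holds if and only if `W` is self-dual. So two components are only related if
they are dual to each other.
The irreducible case with `N` is treated by the same method: for self-dual `W` the corner `c g f` is
an algebra of operators on a quadratic space whose dimension is odd or two. If `W` is symplectic of
dimension `2h`, `h` odd, all root vectors of `g` on `W` have square zero and the sum of their ranks
over the positive roots is `h` modulo two, because the weights of a principal `sl₂` on `W` are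
odd; so one of these ranks is odd and the previous case applies. In the numerical case the algebra
`g` splits on `W` into commuting ideals, which gives a factorisation of `n` (Clifford theory and a
theorem of Hall type for the ranks), unless every root vector of a maximal torus `t` through a
suitable `e` is seen by `e`. Then all root vectors have square zero, the values of the coroots on
the weights are `0`, `±1`, and the weights form one orbit. The lattice of coroots has vectors of one
or two lengths; with one length and ranks other than `n / 2` a system of letters is constructed such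
that the weights are the `k`-subsets of `N` letters. The classification of simple Lie algebras and
their representations is not used.
-/

set_option autoImplicit false

namespace Pool.Agent.Results.MP_6c781a_ag.MinimalRanks

section Defs

variable {K V : Type*} [Field K] [AddCommGroup V] [Module K V]

/-- `U` is stable under all elements of `G`. -/
def Stable (G : Set (Module.End K V)) (U : Submodule K V) : Prop :=
  ∀ e ∈ G, ∀ u ∈ U, e u ∈ U

/-- `W` is irreducible: it is stable, nonzero and has no stable subspaces other than `0`, `W`. -/
def Irred (G : Set (Module.End K V)) (W : Submodule K V) : Prop :=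
  Stable G W ∧ W ≠ ⊥ ∧ ∀ U, Stable G U → U ≤ W → U = ⊥ ∨ U = W

/-- `V` is semisimple: every stable subspace has a stable complement. -/
def Semisimple (G : Set (Module.End K V)) : Prop :=
  ∀ U, Stable G U → ∃ U', Stable G U' ∧ IsCompl U U'

/-- There is a bilinear form whose restriction to `W` has zero left kernel, such that the elements
of `G` are similitudes of this restriction with multiplier one. -/
def SelfDual (G : Set (Module.End K V)) (W : Submodule K V) : Prop :=
  ∃ φ : V →ₗ[K] V →ₗ[K] K, (∀ x ∈ W, (∀ y ∈ W, φ x y = 0) → x = 0) ∧
    ∀ e ∈ G, ∀ x ∈ W, ∀ y ∈ W, φ (e x) y + φ x (e y) = φ x y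

/-- The same with an alternating form. -/
def Symplectic (G : Set (Module.End K V)) (W : Submodule K V) : Prop :=
  ∃ φ : V →ₗ[K] V →ₗ[K] K, (∀ x ∈ W, φ x x = 0) ∧ (∀ x ∈ W, (∀ y ∈ W, φ x y = 0) → x = 0) ∧
    ∀ e ∈ G, ∀ x ∈ W, ∀ y ∈ W, φ (e x) y + φ x (e y) = φ x y

/-- `r` is the rank on `W` of an element of `G`, other than zero and the dimension of `W`. -/
def IsRank (G : Set (Module.End K V)) (W : Submodule K V) (r : ℕ) : Prop :=
  r ≠ 0 ∧ r ≠ Module.finrank K W ∧ ∃ e ∈ G, Module.finrank K (W.map e) = r

/-- The ranks exclude tensor products: there is no factorisation `n = a b` of the dimension `n` of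
`W` with `a, b > 1` such that every rank `r` (other than `0`, `n`) is divisible by `a` or by `b`,
some rank is divisible by `a` and some rank is divisible by `b`. And they exclude exterior powers and
self-dual representations: some rank `r` is not `n / 2`, and `(n, r)` is not
`(C(N, k), C(N - 1, k - 1))` with `1 < k < N - 1`. -/
def Numerical (G : Set (Module.End K V)) (W : Submodule K V) : Prop :=
  (∀ a b : ℕ, 1 < a → 1 < b → a * b = Module.finrank K W →
    ¬ ((∀ r, IsRank G W r → a ∣ r ∨ b ∣ r) ∧ (∃ r, IsRank G W r ∧ a ∣ r) ∧
      ∃ r, IsRank G W r ∧ b ∣ r)) ∧
  ∃ r, IsRank G W r ∧ 2 * r ≠ Module.finrank K W ∧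
    ∀ N k : ℕ, 1 < k → k < N - 1 → ¬ (Module.finrank K W = N.choose k ∧
      r = (N - 1).choose (k - 1))

/-- `e` is zero or one on `W`. -/
def Scalar (e : Module.End K V) (W : Submodule K V) : Prop :=
  (∀ w ∈ W, e w = 0) ∨ ∀ w ∈ W, e w = w

/-- There are no proper twists: let `W`, `W'` be irreducible, not lines, and let `f` be an
isomorphism of `W` and `W'` such that every `e` in `G` commutes with `f` on `W` or is scalar on both
`W` and `W'`. Then there is a pairing of `W` and `W'`, not zero, with the multiplier of `ψ`, or an
isomorphism `f'` of `W` and `W'` commuting with all `e` in `G`. -/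
def Untwisted (G : Set (Module.End K V)) : Prop :=
  ∀ W W', Irred G W → Irred G W' → Module.finrank K W ≠ 1 → ∀ f : Module.End K V,
    W.map f = W' → (∀ w ∈ W, f w = 0 → w = 0) →
    (∀ e ∈ G, (∀ w ∈ W, f (e w) = e (f w)) ∨ Scalar e W ∧ Scalar e W') →
    (∃ φ : V →ₗ[K] V →ₗ[K] K, (∀ e ∈ G, ∀ x ∈ W, ∀ y ∈ W', φ (e x) y + φ x (e y) = φ x y) ∧
      ∃ x ∈ W, ∃ y ∈ W', φ x y ≠ 0) ∨
    ∃ f' : Module.End K V, W.map f' = W' ∧ (∀ w ∈ W, f' w = 0 → w = 0) ∧
      ∀ e ∈ G, ∀ w ∈ W, f' (e w) = e (f' w)

/-- The Lie algebra generated by `G`: the smallest subspace of `End V` that contains `G` and is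
closed under commutators. -/
def lieSpan (G : Set (Module.End K V)) : Submodule K (Module.End K V) :=
  sInf {g | G ⊆ g ∧ ∀ a ∈ g, ∀ b ∈ g, a * b - b * a ∈ g}

/-- The derived algebra: the span of the commutators of elements of `lieSpan G`. -/
def derivedSpan (G : Set (Module.End K V)) : Submodule K (Module.End K V) :=
  Submodule.span K {z | ∃ a ∈ lieSpan G, ∃ b ∈ lieSpan G, z = a * b - b * a}

/-- `D` is skew with respect to `ψ`, commutes with all endomorphisms that commute with `G`, and has
trace zero on every irreducible subspace. -/
def Admissible (ψ : V →ₗ[K] V →ₗ[K] K) (G : Set (Module.End K V)) (D : Module.End K V) : Prop :=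
  (∀ x y, ψ (D x) y + ψ x (D y) = 0) ∧
    (∀ T : Module.End K V, (∀ e ∈ G, e * T = T * e) → D * T = T * D) ∧
    ∀ W, Irred G W → ∀ A : Module.End K W, (∀ w : W, (A w : V) = D w) →
      LinearMap.trace K W A = 0

end Defs

/-- The Lie algebra generated by a semisimple set `G` of idempotents of multiplier one and its
derived algebra, if there are no proper twists and every irreducible subspace `W` has dimension one
or two, or is symplectic of dimension four or two modulo four, or satisfies the numerical condition,
or the Lie algebra contains an element of square zero whose rank on `W` is odd and `W` is self-dual,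
or two and `W` is symplectic, or one and no element of `G` is scalar on `W` or some element has a
rank other than `0`, `n / 2`, `n`. -/
theorem result {K V : Type*} [Field K] [CharZero K] [IsAlgClosed K] [AddCommGroup V] [Module K V]
    [FiniteDimensional K V] (ψ : V →ₗ[K] V →ₗ[K] K) (hnd : ∀ x, (∀ y, ψ x y = 0) → x = 0)
    (G : Set (Module.End K V)) (hidem : ∀ e ∈ G, e * e = e)
    (hψ : ∀ e ∈ G, ∀ x y, ψ (e x) y + ψ x (e y) = ψ x y) (hss : Semisimple G)
    (hW : ∀ W, Irred G W →
      Module.finrank K W = 1 ∨ Module.finrank K W = 2 ∨
      (Symplectic G W ∧ (Module.finrank K W % 4 = 2 ∨ Module.finrank K W = 4)) ∨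
      Numerical G W ∨
      ∃ N ∈ lieSpan G, N * N = 0 ∧ (
        (SelfDual G W ∧ Odd (Module.finrank K (W.map N))) ∨
        (Symplectic G W ∧ Module.finrank K (W.map N) = 2) ∨
        ((∀ e ∈ G, ¬ Scalar e W) ∨ ∃ r, IsRank G W r ∧ 2 * r ≠ Module.finrank K W) ∧
          Module.finrank K (W.map N) = 1))
    (htw : Untwisted G) (D : Module.End K V) :
    (D ∈ derivedSpan G ↔ Admissible ψ G D) ∧
      (D ∈ lieSpan G ↔ ∃ z ∈ Submodule.span K G, Admissible ψ G (D - z)) := by
  have htw' : Pool.Agent.Twist.NoTwist G := by
    rintro W W' hW hW' h1 ⟨f, hf, hinj, hc⟩
    rcases htw W W' hW hW' h1 f hf hinj hc with h2 | ⟨f', hf', hinj', hc'⟩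
    · exact Or.inr h2
    · left
      have hfW : ∀ w ∈ W, f' w ∈ W' := fun w hw => hf' ▸ ⟨w, hw, rfl⟩
      refine ⟨(f'.restrict hfW : W →ₗ[K] W'), ?_, ?_, ?_⟩
      · intro e he u v huv
        change f' v = e (f' u)
        rw [huv, hc' e he u u.2]
      · rw [injective_iff_map_eq_zero]
        intro w hw
        exact Subtype.ext (hinj' w w.2 (congrArg Subtype.val hw))
      · rintro ⟨y, hy⟩
        rw [← hf'] at hy
        obtain ⟨w, hw, rfl⟩ := hy
        exact ⟨⟨w, hw⟩, rfl⟩
  have key : ∀ D : Module.End K V, D ∈ derivedSpan G ↔ Admissible ψ G D := by
    refine fun D => Pool.Agent.Twist.commutant_tw hnd hidem hψ hss ?_ htw' D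
    intro W hWi
    rcases hW W hWi with h1 | h2 | ⟨⟨φ, halt, hφ, hφe⟩, h4⟩ | ⟨h1, r, hr, hr2, hr3⟩ |
      ⟨N, hN, hNN, ⟨hsd, h⟩ | ⟨⟨φ, halt, hφ, hφe⟩, h⟩ | ⟨hns | ⟨r, ⟨h0, h1, e, he, rfl⟩, hr⟩, h⟩⟩
    · exact Or.inr (Pool.Agent.Twist.ktr_of_line h1)
    · exact Or.inr (Pool.Agent.Twist.ktr_of_two hidem hss hWi h2)
    · exact Or.inl (Pool.Agent.Mod4.ksp_of_mod4 hidem hss hWi halt hφ hφe h4)
    · refine Or.inr (Pool.Agent.Twist.ktr_of_num hidem hss hWi
        ⟨fun a b ha hb hab h2 h3 h4 => ?_, r, hr, hr2, fun N k hk hkN hN hrk => ?_⟩)
      · exact h1 a b ha hb hab ⟨h2, h3, h4⟩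
      · exact hr3 N k (by omega) (by omega) ⟨hN, hrk⟩
    · exact Or.inl (Pool.Agent.TypeIV.MX.ksp_of_odd hidem hss hWi hsd hN hNN h)
    · exact Or.inl (Pool.Agent.TypeIV.MX.ksp_of_two hidem hss hWi halt hφ hφe hN hNN h)
    · by_cases hsd : SelfDual G W
      · exact Or.inl (Pool.Agent.TypeIV.MX.ksp_of_odd hidem hss hWi hsd hN hNN
          (by rw [h]; exact odd_one))
      · refine Or.inr (Pool.Agent.Twist.ktr_of_ksl (Pool.Agent.TypeIV.MX.ksl_of_one hidem hss hWi
          (fun e he => ?_) hsd hN hNN h))
        have h3 := hns e he
        simp only [Scalar] at h3
        push Not at h3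
        exact h3
    · exact Or.inr (Pool.Agent.Twist.ktr_of_one hidem hss hWi hN hNN h he h0 h1 hr)
  refine ⟨key D, ?_⟩
  rw [show (D ∈ lieSpan G ↔ ∃ z ∈ Submodule.span K G, D - z ∈ derivedSpan G) from
    Pool.Agent.TypeIV.MX.mem_lieSpan_iff]
  exact exists_congr fun z => and_congr_right fun _ => key (D - z)

end Pool.Agent.Results.MP_6c781a_ag.MinimalRanks
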