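import Pool.Agent.EllSig.Final

/-!
# The Mumford–Tate conjecture for simple abelian varieties of type IV with a signature prime to `l`

Let `A` be an abelian variety over a number field, `ℓ` a prime number, `ℂ` an algebraically closed
field containing `ℚ_ℓ` (it may be identified with the complex numbers), `V = V_ℓ(A) ⊗ ℂ`, `g` the Lie
algebra of the `ℓ`-adic monodromy group, with coefficients in `ℂ`, `F` the matrix of the Weil pairing
and `K` the centre of the endomorphism algebra of `A`, which is a CM field. The characteristic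
polynomial over `K` of the Frobenius element at a place of good reduction has coefficients in `K`,
so that the Frobenius element and the elements of `K` are given by rational matrices `Φ`, `R r` in a
suitable basis of `V`. There is a place for which the Frobenius torus is a maximal torus of the
monodromy group (Serre), so that its Lie algebra `frobTorus Φ` is its own centraliser in `g`. The
Hodge–Tate decomposition gives the idempotent `e` of `g` (Sen). `V` is semisimple under `g`, the
commutant of `g` is the endomorphism algebra (Faltings), hence the eigenspaces `HS R σ` are isotypic;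
`g` contains the homotheties (Bogomolov).

`ratM` and `HS` are in `Pool.Agent.CoprimeSig.Defs2`, `frobTorus` in `Pool.Agent.OneFrob.Torus`,
`LData` in `Pool.Agent.EllSig.Defs`, `Isotypic` in `Pool.Agent.EllSig.Final` and `conjOver` in
`Pool.Agent.PrimeSig.Htr`.
-/

set_option autoImplicit false

namespace Pool.Agent.Results.MP_6c781a_ag.OrbitSignature

open Module Pool.Agent.CoprimeSig Pool.Agent.PrimeSig Pool.Agent.OneFrob Pool.Agent.EllSig

variable {ι : Type} [Fintype ι] [DecidableEq ι] {K : Type} [Field K] [NumberField K]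

/-- `Φ` is diagonalisable over `ℂ`, the Lie algebra of its Frobenius torus is contained in `g` and is
its own centraliser in `g`. -/
structure FrobCond (Φ : Matrix ι ι ℚ) (g : Submodule ℂ (Matrix ι ι ℂ)) : Prop where
  diag : ⨆ μ, Module.End.eigenspace (Matrix.toLin' (ratM Φ)) μ = ⊤
  le : ∀ x, Matrix.toLin' x ∈ frobTorus (Matrix.toLin' (ratM Φ)) → x ∈ g
  cent : ∀ x ∈ g, (∀ y, Matrix.toLin' y ∈ frobTorus (Matrix.toLin' (ratM Φ)) → x * y = y * x) →
    Matrix.toLin' x ∈ frobTorus (Matrix.toLin' (ratM Φ))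

/-- The action of the CM field `K`: the Rosati involution is complex conjugation, `K` commutes with
`g`, and the eigenspaces of `K` are isotypic. -/
structure FieldCond [NumberField.IsCMField K] (R : K →+* Matrix ι ι ℚ)
    (g : Submodule ℂ (Matrix ι ι ℂ)) (F : Matrix ι ι ℂ) : Prop where
  adj : ∀ r, (ratM (R r)).transpose * F = F * ratM (R (NumberField.IsCMField.complexConj K r))
  comm : ∀ r, ∀ x ∈ g, x * ratM (R r) = ratM (R r) * x
  iso : ∀ σ, Isotypic g (HS R σ)

/-- The signature: the rank of the idempotent `e` on the eigenspace of `K`. -/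
noncomputable def sgn (R : K →+* Matrix ι ι ℚ) (e : Matrix ι ι ℂ) (σ : K →+* ℂ) : ℕ :=
  finrank ℂ ((HS R σ).map (Matrix.toLin' e))

/-- The conditions on the conjugates of `σ₀` over `M`, `M'` and the signature `a`. -/
structure OrbitCond (n l k : ℕ) (M M' : Subfield ℂ) (σ₀ : K →+* ℂ) (a : (K →+* ℂ) → ℕ) : Prop where
  prime : l.Prime
  le : M ≤ M'
  half : ∀ σ, σ ∈ conjOver M σ₀ ↔ (starRingEnd ℂ).comp σ ∉ conjOver M σ₀
  card : n * Nat.card (conjOver M' σ₀) = l ^ k * finrank ℚ K
  deg : n = finrank ℚ K ∨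
    ¬ l ∣ finrank σ₀.fieldRange (IntermediateField.adjoin σ₀.fieldRange (M' : Set ℂ))
  zero : ∀ σ ∈ conjOver M σ₀, σ ∉ conjOver M' σ₀ → a σ = 0
  ndvd : ¬ l ∣ ∑ᶠ σ ∈ conjOver M' σ₀, a σ
  four : 4 * (∑ᶠ σ ∈ conjOver M' σ₀, a σ) ≠ n

/-- The Lie algebra `g` consists of all similitudes in its double commutant. -/
theorem result [NumberField.IsCMField K] (R : K →+* Matrix ι ι ℚ) (Φ : Matrix ι ι ℚ)
    {g : Submodule ℂ (Matrix ι ι ℂ)} {F : Matrix ι ι ℂ} (D : LData g F) (hΦ : FrobCond Φ g)
    (hR : FieldCond R g F) {e : Matrix ι ι ℂ} (he : e ∈ g) (hee : e * e = e)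
    (heF : e.transpose * F + F * e = F) (M M' : Subfield ℂ) (σ₀ : K →+* ℂ) {l k : ℕ}
    (hO : OrbitCond (Fintype.card ι) l k M M' σ₀ (sgn R e)) (N : Matrix ι ι ℂ) :
    N ∈ g ↔ (∃ m : ℂ, N.transpose * F + F * N = m • F) ∧
      ∀ Z : Matrix ι ι ℂ, (∀ x ∈ g, x * Z = Z * x) → N * Z = Z * N :=
  full_orbit R Φ hΦ.diag D hR.adj hR.comm hR.iso hΦ.le hΦ.cent he hee heF M M' hO.le σ₀ hO.half
    hO.prime hO.card hO.deg
    (fun σ hσ hσ' => Submodule.finrank_eq_zero.1 (hO.zero σ hσ hσ')) hO.ndvd hO.four N

end Pool.Agent.Results.MP_6c781a_ag.OrbitSignature
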